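import Pool.Agent.helper91.SI.Spec4

/-!
# Row C6Y: closed walks of total length 6
-/

set_option autoImplicit false

namespace Pool.Agent.helper91.SI

open Pool.Agent.helper20.IG (IsIndepDom IsISet iGraph)

theorem C6Y_three {V : Type} {G : SimpleGraph V} (hN3 : NoTri G) {a b c : V}
    (h1 : G.Adj a b) (h2 : G.Adj b c) (h3 : G.Adj c a) : False :=
  hN3 a b c h1 h2 h3.symm

theorem C6Y_val : ∀ k : ZMod 6, (k + 1).val = k.val + 1 ∨ (k.val = 5 ∧ (k + 1).val = 0) := by
  decide

theorem C6Y_dist : ∀ i j : ZMod 6, i ≠ j →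
    j = i + 1 ∨ j = i + 2 ∨ j = i + 3 ∨ i = j + 1 ∨ i = j + 2 := by
  decide

theorem C6Y_cases : ∀ i k : ZMod 6,
    k = i ∨ k = i + 1 ∨ k = i + 2 ∨ k = i + 3 ∨ k = i + 4 ∨ k = i + 5 := by
  decide

theorem C6Y_six : ∀ i : ZMod 6, i + 5 + 1 = i := by
  decide

theorem C6Y (hP6R : P6R_stmt) : C6Y_stmt := by
  intro V G s τ hN3 hN4 hadj
  have h0 : ∀ t, τ t ≠ t := by
    intro t h
    have h1 := hadj t
    rw [h] at h1
    exact G.loopless.irrefl _ h1
  rcases hP6R τ h0 with ⟨t, ht⟩ | h4 | ⟨h6, honto⟩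
  · exfalso
    have h3 := hadj (τ (τ t))
    rw [ht] at h3
    exact C6Y_three hN3 (hadj t) (hadj (τ t)) h3
  · right
    intro t
    have h5 := hadj (τ (τ (τ t)))
    rw [h4 t] at h5
    by_cases e1 : s t = s (τ (τ t))
    · exact ⟨τ t, rfl, e1.symm⟩
    by_cases e2 : s (τ t) = s (τ (τ (τ t)))
    · refine ⟨τ (τ (τ t)), e2.symm, ?_⟩
      rw [h4 t]
    · exact (hN4 _ _ _ _ (hadj t) (hadj (τ t)) (hadj (τ (τ t))) h5 e1 e2).elim
  · obtain ⟨g, hg⟩ : ∃ g : ZMod 6 → ZMod 6, ∀ k, g k = (τ ^ k.val) 0 := ⟨_, fun _ => rfl⟩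
    have hstep : ∀ k, g (k + 1) = τ (g k) := by
      intro k
      rw [hg, hg]
      rcases C6Y_val k with h | ⟨h1, h2⟩
      · rw [h, pow_succ', Equiv.Perm.mul_apply]
      · rw [h2, h1, pow_zero, Equiv.Perm.one_apply, ← Equiv.Perm.mul_apply, ← pow_succ']
        exact h6.symm
    have hsurj : Function.Surjective g := by
      intro i
      obtain ⟨k, hk⟩ := honto i
      refine ⟨((k : ℕ) : ZMod 6), ?_⟩
      rw [hg, ZMod.val_natCast, Nat.mod_eq_of_lt k.2]
      exact hk
    have hbij : Function.Bijective g := Finite.surjective_iff_bijective.1 hsurj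
    have hz : ∀ k, G.Adj (s (g k)) (s (g (k + 1))) := by
      intro k
      rw [hstep]
      exact hadj (g k)
    have z1 : ∀ k, s (g k) ≠ s (g (k + 1)) := fun k => G.ne_of_adj (hz k)
    have z3 : ∀ k, s (g k) ≠ s (g (k + 3)) := by
      intro k h
      have e : k + 3 = k + 1 + 1 + 1 := by ring
      have h3 := hz (k + 1 + 1)
      rw [← e, ← h] at h3
      exact C6Y_three hN3 (hz k) (hz (k + 1)) h3
    by_cases h2 : ∀ k, s (g k) ≠ s (g (k + 2))
    · left
      obtain ⟨κ, hκ⟩ : ∃ κ : Equiv.Perm (ZMod 6), ∀ t, g (κ t) = t :=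
        ⟨(Equiv.ofBijective g hbij).symm, fun t => (Equiv.ofBijective g hbij).apply_symm_apply t⟩
      refine ⟨fun k => s (g k), κ, ⟨?_, hz⟩, ?_⟩
      · intro i j hij
        by_contra hne
        have hij' : s (g i) = s (g j) := hij
        rcases C6Y_dist i j hne with h | h | h | h | h
        · rw [h] at hij'
          exact z1 i hij'
        · rw [h] at hij'
          exact h2 i hij'
        · rw [h] at hij'
          exact z3 i hij'
        · rw [h] at hij'
          exact z1 j hij'.symm
        · rw [h] at hij'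
          exact h2 j hij'.symm
      · intro t
        constructor
        · show s t = s (g (κ t))
          rw [hκ]
        · show s (τ t) = s (g (κ t + 1))
          rw [hstep, hκ]
    · right
      push Not at h2
      obtain ⟨i, e0⟩ := h2
      have n0 : s (τ (g i)) = s (g (i + 1)) := by rw [hstep]
      have n1 : s (τ (g (i + 1))) = s (g (i + 2)) := by
        rw [← hstep]
        have : i + 1 + 1 = i + 2 := by ring
        rw [this]
      have n2 : s (τ (g (i + 2))) = s (g (i + 3)) := by
        rw [← hstep]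
        have : i + 2 + 1 = i + 3 := by ring
        rw [this]
      have n3 : s (τ (g (i + 3))) = s (g (i + 4)) := by
        rw [← hstep]
        have : i + 3 + 1 = i + 4 := by ring
        rw [this]
      have n4 : s (τ (g (i + 4))) = s (g (i + 5)) := by
        rw [← hstep]
        have : i + 4 + 1 = i + 5 := by ring
        rw [this]
      have n5 : s (τ (g (i + 5))) = s (g i) := by
        rw [← hstep, C6Y_six]
      have a2 : G.Adj (s (g (i + 2))) (s (g (i + 3))) := by rw [← n2]; exact hadj _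
      have a3 : G.Adj (s (g (i + 3))) (s (g (i + 4))) := by rw [← n3]; exact hadj _
      have a4 : G.Adj (s (g (i + 4))) (s (g (i + 5))) := by rw [← n4]; exact hadj _
      have a5 : G.Adj (s (g (i + 5))) (s (g (i + 2))) := by rw [← e0, ← n5]; exact hadj _
      have key : s (g (i + 2)) = s (g (i + 4)) ∨ s (g (i + 3)) = s (g (i + 5)) := by
        by_contra hk
        push Not at hk
        exact hN4 _ _ _ _ a2 a3 a4 a5 hk.1 hk.2
      intro t
      obtain ⟨k, rfl⟩ := hsurj t
      rcases C6Y_cases i k with h | h | h | h | h | h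
      · subst h
        exact ⟨g (k + 1), n0.symm, by rw [n1, e0]⟩
      · subst h
        exact ⟨g i, by rw [n1, e0], n0⟩
      · subst h
        rcases key with hk | hk
        · exact ⟨g (i + 3), n2.symm, by rw [n3, hk]⟩
        · exact ⟨g (i + 5), by rw [n2, hk], by rw [n5, e0]⟩
      · subst h
        rcases key with hk | hk
        · exact ⟨g (i + 2), by rw [n3, hk], n2⟩
        · exact ⟨g (i + 4), n3.symm, by rw [n4, hk]⟩
      · subst h
        rcases key with hk | hk
        · exact ⟨g (i + 5), n4.symm, by rw [n5, e0, hk]⟩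
        · exact ⟨g (i + 3), by rw [n4, hk], n3⟩
      · subst h
        rcases key with hk | hk
        · exact ⟨g (i + 4), by rw [n5, e0, hk], n4⟩
        · exact ⟨g (i + 2), by rw [n5, e0], by rw [n2, hk]⟩

end Pool.Agent.helper91.SI
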