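import Pool.Agent.helper91.SI.Spec

/-!
# Row PA2: the i-graph of the path with 3k - 1 vertices
-/

set_option autoImplicit false

namespace Pool.Agent.helper91.SI

open Pool.Agent.helper20.IG (IsIndepDom IsISet iGraph)

theorem PA2_step (hPAB : PAB_stmt) (n k : ℕ) (hk : n + 1 = 3 * k) (hk2 : 2 ≤ k) (S : Finset (Fin n))
    (hS : IsISet (SimpleGraph.pathGraph n) S) (j : ℕ) (hj : j + 1 < k)
    (h : ∀ x ∈ S, x.val ≠ 3 * j + 1) : ∀ x ∈ S, x.val ≠ 3 * (j + 1) + 1 := by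
  obtain ⟨_, h2, h3⟩ := hPAB n k (Or.inr hk) (by omega) (by omega) S hS
  intro x hx hxe
  have hy : 3 * j + 2 < n := by omega
  have hyS : (⟨3 * j + 2, hy⟩ : Fin n) ∉ S := fun hm => h3 _ hm (by show (3 * j + 2) % 3 = 2; omega)
  obtain ⟨u, hu, hadj⟩ := hS.1.2 _ hyS
  rw [SimpleGraph.pathGraph_adj] at hadj
  rcases hadj with hadj | hadj
  · have h4 : u.val + 1 = 3 * j + 2 := hadj
    exact h u hu (by omega)
  · have h4 : 3 * j + 2 + 1 = u.val := hadj
    have h5 := h2 x hx u hu (by omega)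
    rw [h5] at hxe
    omega

theorem PA2_steps (hPAB : PAB_stmt) (n k : ℕ) (hk : n + 1 = 3 * k) (hk2 : 2 ≤ k) (S : Finset (Fin n))
    (hS : IsISet (SimpleGraph.pathGraph n) S) (j : ℕ) (h : ∀ x ∈ S, x.val ≠ 3 * j + 1) :
    ∀ d : ℕ, j + d < k → ∀ x ∈ S, x.val ≠ 3 * (j + d) + 1 := by
  intro d
  induction d with
  | zero => intro _; simpa using h
  | succ d ih =>
    intro hd
    have h1 := PA2_step hPAB n k hk hk2 S hS (j + d) (by omega) (ih (by omega))
    intro x hx hxe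
    exact h1 x hx (by omega)

theorem PA2_cut (hPAB : PAB_stmt) (n k : ℕ) (hk : n + 1 = 3 * k) (hk2 : 2 ≤ k) (S : Finset (Fin n))
    (hS : IsISet (SimpleGraph.pathGraph n) S) :
    ∃ t ≤ k, (∀ j < t, ∃ x ∈ S, x.val = 3 * j + 1) ∧
      ∀ j, t ≤ j → j < k → ∀ x ∈ S, x.val ≠ 3 * j + 1 := by
  classical
  by_cases h : ∃ j, j < k ∧ ∀ x ∈ S, x.val ≠ 3 * j + 1
  · refine ⟨Nat.find h, (Nat.find_spec h).1.le, ?_, ?_⟩
    · intro j hj
      have h1 := Nat.find_min h hj
      by_contra h2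
      push Not at h2
      exact h1 ⟨lt_trans hj (Nat.find_spec h).1, h2⟩
    · intro j hj hjk
      have h1 := PA2_steps hPAB n k hk hk2 S hS (Nat.find h) (Nat.find_spec h).2 (j - Nat.find h) (by omega)
      intro x hx hxe
      exact h1 x hx (by omega)
  · refine ⟨k, le_rfl, ?_, fun j h1 h2 => by omega⟩
    intro j hj
    by_contra h2
    push Not at h2
    exact h ⟨j, hj, h2⟩

theorem PA2_struct (hPAB : PAB_stmt) (n k : ℕ) (hk : n + 1 = 3 * k) (hk2 : 2 ≤ k) (S : Finset (Fin n))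
    (hS : IsISet (SimpleGraph.pathGraph n) S) :
    ∃ t : ℕ, t ≤ k ∧ ∀ x : Fin n, x ∈ S ↔
      ((x.val % 3 = 1 ∧ x.val / 3 < t) ∨ (x.val % 3 = 0 ∧ t ≤ x.val / 3)) := by
  obtain ⟨h1, h2, h3⟩ := hPAB n k (Or.inr hk) (by omega) (by omega) S hS
  obtain ⟨t, ht, h4, h5⟩ := PA2_cut hPAB n k hk hk2 S hS
  refine ⟨t, ht, fun x => ⟨fun hx => ?_, ?_⟩⟩
  · have hxn : x.val < n := x.2
    have h6 := h3 x hx
    by_cases h7 : x.val % 3 = 1
    · left
      refine ⟨h7, ?_⟩
      by_contra h8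
      exact h5 (x.val / 3) (by omega) (by omega) x hx (by omega)
    · right
      refine ⟨by omega, ?_⟩
      by_contra h8
      obtain ⟨y, hy, hye⟩ := h4 (x.val / 3) (by omega)
      have h9 := h2 x hx y hy (by omega)
      rw [h9] at h7
      omega
  · rintro (⟨h6, h7⟩ | ⟨h6, h7⟩)
    · obtain ⟨y, hy, hye⟩ := h4 (x.val / 3) h7
      have h8 : x = y := Fin.ext (by omega)
      rw [h8]; exact hy
    · have hxn : x.val < n := x.2
      obtain ⟨y, hy, hye⟩ := h1 (x.val / 3) (by omega)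
      have h8 := h3 y hy
      have h9 := h5 (x.val / 3) h7 (by omega) y hy
      have h10 : x = y := Fin.ext (by omega)
      rw [h10]; exact hy

theorem PA2 (hPAB : PAB_stmt) : PA2_stmt := by
  intro n hn hmod
  refine ⟨fun e => ?_⟩
  obtain ⟨k, hk⟩ : ∃ k, n + 1 = 3 * k := ⟨(n + 1) / 3, by omega⟩
  have hk2 : 2 ≤ k := by omega
  choose t ht1 ht2 using PA2_struct hPAB n k hk hk2
  let f : Fin n → Fin (k + 1) := fun i => ⟨t (e.symm i).1 (e.symm i).2, by
    have := ht1 (e.symm i).1 (e.symm i).2; omega⟩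
  have hf : Function.Injective f := by
    intro i i' h
    have h1 : t (e.symm i).1 (e.symm i).2 = t (e.symm i').1 (e.symm i').2 := congrArg Fin.val h
    apply e.symm.injective
    apply Subtype.ext
    ext x
    rw [ht2 (e.symm i).1 (e.symm i).2 x, ht2 (e.symm i').1 (e.symm i').2 x, h1]
  have h2 := Fintype.card_le_of_injective f hf
  rw [Fintype.card_fin, Fintype.card_fin] at h2
  omega

end Pool.Agent.helper91.SI
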